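import Pool.Agent.Helper67.NO.St4

/-!
# Project NO (MP_26be5b_ag), module CMN: a critical bracket in every semisimple orbit
-/

set_option autoImplicit false

namespace Pool.Agent.Helper99.NO

open Pool.Agent.Helper67.NO Matrix Filter
open scoped Matrix.Norms.Frobenius ContDiff Topology ComplexOrder

section

variable {n : Type} [Fintype n] [DecidableEq n]

/-! ### Continuity -/

private theorem c_entry (i p q : n) : Continuous (fun ν : n → Matrix n n ℂ => ν i p q) :=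
  (Matrix.entryLinearMap ℂ ℂ p q).continuous_of_finiteDimensional.comp (continuous_apply i)

private theorem c_nsm : Continuous (fun ν : n → Matrix n n ℂ => nsm ν) := by
  unfold nsm
  exact continuous_finsetSum _ fun i _ => (continuous_apply i).norm.pow 2

private theorem c_kil : Continuous (fun ν : n → Matrix n n ℂ => (Kil ν).det) := by
  simp only [Matrix.det_apply']
  refine continuous_finsetSum _ fun σ _ => continuous_const.mul ?_
  refine continuous_finsetProd _ fun i _ => ?_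
  exact (Matrix.traceLinearMap n ℂ ℂ).continuous_of_finiteDimensional.comp
    ((continuous_apply (σ i)).mul (continuous_apply i))

private theorem lim_lie {x : ℕ → n → Matrix n n ℂ} {a : n → Matrix n n ℂ}
    (hx : Tendsto x atTop (𝓝 a)) (h : ∀ k, IsLie (x k)) : IsLie a := by
  constructor
  · intro i j k
    exact tendsto_nhds_unique (((c_entry i k j).tendsto a).comp hx)
      ((((c_entry j k i).neg.tendsto a).comp hx).congr fun m => ((h m).1 i j k).symm)
  · intro i j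
    have hf : Continuous (fun ν : n → Matrix n n ℂ => br (ν i) (ν j)) := by
      unfold br
      exact ((continuous_apply i).mul (continuous_apply j)).sub
        ((continuous_apply j).mul (continuous_apply i))
    have hg : Continuous (fun ν : n → Matrix n n ℂ => ∑ k, ν i k j • ν k) :=
      continuous_finsetSum _ fun k _ => (c_entry i k j).smul (continuous_apply k)
    exact tendsto_nhds_unique ((hf.tendsto a).comp hx)
      (((hg.tendsto a).comp hx).congr fun m => ((h m).2 i j).symm)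

private theorem nsm_nonneg' (ν : n → Matrix n n ℂ) : 0 ≤ nsm ν :=
  Finset.sum_nonneg fun _ _ => sq_nonneg _

private theorem norm_le_nsm (ν : n → Matrix n n ℂ) (i : n) : ‖ν i‖ ^ 2 ≤ nsm ν :=
  Finset.single_le_sum (f := fun i => ‖ν i‖ ^ 2) (fun _ _ => sq_nonneg _) (Finset.mem_univ i)

private theorem kil_norm
    (hK : ∀ (g : Matrix n n ℂ) (μ : n → Matrix n n ℂ), IsUnit g →
      Kil (gact g μ) = (g⁻¹)ᵀ * Kil μ * g⁻¹) (g : Matrix n n ℂ) (μ : n → Matrix n n ℂ)
    (hg : IsUnit g) : ‖(Kil (gact g μ)).det‖ * ‖g.det‖ ^ 2 = ‖(Kil μ).det‖ := by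
  rw [hK g μ hg, det_mul, det_mul, det_transpose, norm_mul, norm_mul]
  have h1 : ‖g⁻¹.det‖ * ‖g.det‖ = 1 := by
    rw [← norm_mul, ← det_mul, nonsing_inv_mul _ ((isUnit_iff_isUnit_det _).1 hg), det_one,
      norm_one]
  calc ‖g⁻¹.det‖ * ‖(Kil μ).det‖ * ‖g⁻¹.det‖ * ‖g.det‖ ^ 2
      = (‖g⁻¹.det‖ * ‖g.det‖) ^ 2 * ‖(Kil μ).det‖ := by ring
    _ = ‖(Kil μ).det‖ := by rw [h1]; ring

/-! ### One-parameter groups -/

/-- `U diag(exp (t e)) V` -/
private noncomputable def Gg (U V : Matrix n n ℂ) (e : n → ℝ) (t : ℝ) : Matrix n n ℂ :=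
  U * diagonal (fun a => ((Real.exp (t * e a) : ℝ) : ℂ)) * V

private theorem Gg_deriv (U V : Matrix n n ℂ) (e : n → ℝ) :
    HasDerivAt (Gg U V e) (U * diagonal (fun a => ((e a : ℝ) : ℂ)) * V) 0 := by
  have h0 : HasDerivAt (fun (t : ℝ) (a : n) => ((Real.exp (t * e a) : ℝ) : ℂ))
      (fun a => ((e a : ℝ) : ℂ)) 0 := by
    refine hasDerivAt_pi.2 fun a => ?_
    have h1 : HasDerivAt (fun t : ℝ => Real.exp (t * e a)) (e a) 0 := by
      have := ((hasDerivAt_id (0 : ℝ)).mul_const (e a)).exp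
      simpa using this
    exact h1.ofReal_comp
  have h2 := (LinearMap.toContinuousLinearMap
    (Matrix.diagonalLinearMap n ℝ ℂ)).hasFDerivAt.comp_hasDerivAt (0 : ℝ) h0
  exact (h2.const_mul U).mul_const V

private theorem Gg_zero (U V : Matrix n n ℂ) (e : n → ℝ) (h : U * V = 1) : Gg U V e 0 = 1 := by
  unfold Gg
  simp only [zero_mul, Real.exp_zero, Complex.ofReal_one]
  rw [diagonal_one, mul_one, h]

private theorem Gg_inv (U V : Matrix n n ℂ) (e : n → ℝ) (h : U * V = 1) (h' : V * U = 1) (t : ℝ) :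
    Gg U V e t * Gg U V (fun a => - e a) t = 1 := by
  unfold Gg
  have h1 : diagonal (fun a => ((Real.exp (t * e a) : ℝ) : ℂ)) *
      diagonal (fun a => ((Real.exp (t * - e a) : ℝ) : ℂ)) = 1 := by
    rw [diagonal_mul_diagonal, ← diagonal_one]
    congr 1
    funext a
    rw [← Complex.ofReal_mul, ← Real.exp_add]
    simp
  calc U * diagonal (fun a => ((Real.exp (t * e a) : ℝ) : ℂ)) * V *
        (U * diagonal (fun a => ((Real.exp (t * - e a) : ℝ) : ℂ)) * V)
      = U * (diagonal (fun a => ((Real.exp (t * e a) : ℝ) : ℂ)) * (V * U) *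
        diagonal (fun a => ((Real.exp (t * - e a) : ℝ) : ℂ))) * V := by
        simp only [Matrix.mul_assoc]
    _ = 1 := by rw [h', mul_one, h1, mul_one, h]

private theorem Gg_det (U V : Matrix n n ℂ) (e : n → ℝ) (h : U * V = 1) (t : ℝ)
    (he : ∑ a, e a = 0) : (Gg U V e t).det = 1 := by
  unfold Gg
  have h1 : U.det * V.det = 1 := by rw [← det_mul, h, det_one]
  rw [det_mul, det_mul, det_diagonal, mul_right_comm, h1, one_mul, ← Complex.ofReal_prod,
    ← Real.exp_sum, ← Finset.mul_sum, he]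
  simp

/-! ### The derivative of the action -/

private theorem gact_deriv (S : Matrix n n ℂ) (ν : n → Matrix n n ℂ)
    (G G' : ℝ → Matrix n n ℂ) (h1 : ∀ t, G t * G' t = 1) (hG : HasDerivAt G S 0)
    (hG' : HasDerivAt G' (-S) 0) (g0 : G 0 = 1) (g0' : G' 0 = 1) (i : n) :
    HasDerivAt (fun t => gact (G t) ν i) (dact S ν i) 0 := by
  have e1 : (fun t => gact (G t) ν i) = fun t => ∑ j, G' t j i • (G t * ν j * G' t) := by
    funext t
    unfold gact
    rw [Matrix.inv_eq_right_inv (h1 t)]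
  rw [e1]
  have h2 : ∀ j : n, HasDerivAt (fun t => G' t j i • (G t * ν j * G' t))
      (G' 0 j i • (S * ν j * G' 0 + G 0 * ν j * (-S)) + (-S) j i • (G 0 * ν j * G' 0)) 0 := by
    intro j
    have h3 : HasDerivAt (fun t => G' t j i) ((-S) j i) 0 :=
      (LinearMap.toContinuousLinearMap
        (Matrix.entryLinearMap ℝ ℂ j i)).hasFDerivAt.comp_hasDerivAt (0 : ℝ) hG'
    exact h3.smul ((hG.mul_const (ν j)).mul hG')
  have h4 := HasDerivAt.fun_sum (u := Finset.univ) (fun j _ => h2 j)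
  refine h4.congr_deriv ?_
  rw [g0, g0']
  unfold dact br
  simp only [mul_one, one_mul, Matrix.one_apply, ite_smul, one_smul, zero_smul, mul_neg,
    Finset.sum_add_distrib, Finset.sum_ite_eq', Finset.mem_univ, if_true, Matrix.neg_apply,
    neg_smul, Finset.sum_neg_distrib, sub_eq_add_neg]

private theorem ipm_deriv (w : ℝ → n → Matrix n n ℂ) (δ : n → Matrix n n ℂ)
    (hw : ∀ i, HasDerivAt (fun t => w t i) (δ i) 0) :
    HasDerivAt (fun t => ipm (w t) (w t)) (ipm δ (w 0) + ipm (w 0) δ) 0 := by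
  have h1 : ∀ i : n, HasDerivAt (fun t => trace ((w t i)ᴴ * w t i))
      (trace ((δ i)ᴴ * w 0 i) + trace ((w 0 i)ᴴ * δ i)) 0 := by
    intro i
    have h2 : HasDerivAt (fun t => star (w t i)) (star (δ i)) 0 := (hw i).star
    have h3 := h2.mul (hw i)
    have h4 := (LinearMap.toContinuousLinearMap
      (Matrix.traceLinearMap n ℝ ℂ)).hasFDerivAt.comp_hasDerivAt (0 : ℝ) h3
    refine h4.congr_deriv ?_
    exact Matrix.trace_add _ _
  have h5 := HasDerivAt.fun_sum (u := Finset.univ) (fun i _ => h1 i)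
  refine h5.congr_deriv ?_
  unfold ipm
  rw [Finset.sum_add_distrib]

/-! ### Critical point at a minimum -/

private theorem crit_of_min
    (a1 : ∀ (g h : Matrix n n ℂ) (μ : n → Matrix n n ℂ), IsUnit g → IsUnit h →
      gact (g * h) μ = gact g (gact h μ))
    (a2 : ∀ μ : n → Matrix n n ℂ, gact 1 μ = μ)
    (a5 : ∀ (X : Matrix n n ℂ) (μ ν : n → Matrix n n ℂ), ipm (dact X μ) ν = ipm μ (dact Xᴴ ν))
    (a9 : ∀ μ : n → Matrix n n ℂ, ipm μ μ = (nsm μ : ℂ))
    (ν : n → Matrix n n ℂ)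
    (hmin : ∀ g : Matrix n n ℂ, IsUnit g → ‖g.det‖ = 1 → nsm ν ≤ nsm (gact g ν))
    (S : Matrix n n ℂ) (hS : S.IsHermitian) (htr : trace S = 0) :
    (ipm ν (dact S ν)).re = 0 := by
  set U : Matrix n n ℂ := (hS.eigenvectorUnitary : Matrix n n ℂ) with hU
  set V : Matrix n n ℂ := star U with hV
  have hUV : U * V = 1 := Unitary.mul_star_self_of_mem hS.eigenvectorUnitary.2
  have hVU : V * U = 1 := Unitary.star_mul_self_of_mem hS.eigenvectorUnitary.2
  set d : n → ℝ := hS.eigenvalues with hd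
  have hSeq : S = U * diagonal (fun a => ((d a : ℝ) : ℂ)) * V := by
    conv_lhs => rw [hS.spectral_theorem]
    rw [Unitary.conjStarAlgAut_apply]
    rfl
  have hdsum : ∑ a, d a = 0 := by
    have h1 := hS.trace_eq_sum_eigenvalues
    rw [htr] at h1
    have h2 : ((∑ a, d a : ℝ) : ℂ) = 0 := by
      rw [Complex.ofReal_sum]
      exact h1.symm
    exact_mod_cast h2
  have hG : HasDerivAt (Gg U V d) S 0 := by
    have := Gg_deriv U V d
    rwa [← hSeq] at this
  have hG' : HasDerivAt (Gg U V (fun a => - d a)) (-S) 0 := by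
    have h1 := Gg_deriv U V (fun a => - d a)
    refine h1.congr_deriv ?_
    have h2 : diagonal (fun a => ((- d a : ℝ) : ℂ)) = - diagonal (fun a => ((d a : ℝ) : ℂ)) := by
      rw [diagonal_neg]
      congr 1
      funext a
      exact Complex.ofReal_neg _
    rw [h2, mul_neg, neg_mul, ← hSeq]
  have hinv : ∀ t, Gg U V d t * Gg U V (fun a => - d a) t = 1 := Gg_inv U V d hUV hVU
  have hinv' : ∀ t, Gg U V (fun a => - d a) t * Gg U V d t = 1 := by
    intro t
    have := Gg_inv U V (fun a => - d a) hUV hVU t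
    simpa using this
  have hunit : ∀ t, IsUnit (Gg U V d t) := fun t =>
    ⟨⟨Gg U V d t, Gg U V (fun a => - d a) t, hinv t, hinv' t⟩, rfl⟩
  have hdet : ∀ t, ‖(Gg U V d t).det‖ = 1 := fun t => by
    rw [Gg_det U V d hUV t hdsum, norm_one]
  have g0 : Gg U V d 0 = 1 := Gg_zero U V d hUV
  have g0' : Gg U V (fun a => - d a) 0 = 1 := Gg_zero U V _ hUV
  have hw := ipm_deriv (fun t => gact (Gg U V d t) ν) (dact S ν)
    (fun i => gact_deriv S ν _ _ hinv hG hG' g0 g0' i)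
  have hF := Complex.reCLM.hasFDerivAt.comp_hasDerivAt (0 : ℝ) hw
  have hloc : IsLocalMin (fun t : ℝ => Complex.reCLM (ipm (gact (Gg U V d t) ν)
      (gact (Gg U V d t) ν))) 0 := by
    refine Eventually.of_forall fun t => ?_
    simp only [Complex.reCLM_apply]
    rw [a9, a9, Complex.ofReal_re, Complex.ofReal_re, g0, a2]
    exact hmin _ (hunit t) (hdet t)
  have h0 := hloc.hasDerivAt_eq_zero hF
  simp only [Complex.reCLM_apply] at h0
  rw [g0, a2, a5, hS.eq, Complex.add_re] at h0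
  linarith

private theorem main_CMN (h1 : StCAL) (h2 : StCRG) (μ : n → Matrix n n ℂ) (hμ : IsLie μ)
    (hdet : (Kil μ).det ≠ 0) :
    ∃ h : Matrix n n ℂ, IsUnit h ∧ ∀ g : Matrix n n ℂ, IsUnit g → ‖g.det‖ = 1 →
      nsm (gact h μ) ≤ nsm (gact g (gact h μ)) := by
  obtain ⟨a1, a2, a3, a4, a5, -, -, -, a9, -⟩ := h1 n
  let Ω : Set (n → Matrix n n ℂ) := {ν | ∃ g : Matrix n n ℂ, IsUnit g ∧ ‖g.det‖ = 1 ∧ ν = gact g μ}
  have hΩ0 : μ ∈ Ω := ⟨1, isUnit_one, by rw [det_one, norm_one], (a2 μ).symm⟩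
  have hbdd : BddBelow (nsm '' Ω) := ⟨0, by rintro _ ⟨ν, -, rfl⟩; exact nsm_nonneg' ν⟩
  have hne : (nsm '' Ω).Nonempty := ⟨nsm μ, μ, hΩ0, rfl⟩
  obtain ⟨u, hanti, hlim, hmem⟩ := exists_seq_tendsto_sInf hne hbdd
  choose x hxΩ hxu using hmem
  have : ProperSpace (Matrix n n ℂ) := FiniteDimensional.proper ℂ (Matrix n n ℂ)
  have hxb : ∀ k, x k ∈ Metric.closedBall (0 : n → Matrix n n ℂ) (√(u 0)) := by
    intro k
    rw [mem_closedBall_zero_iff, pi_norm_le_iff_of_nonneg (Real.sqrt_nonneg _)]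
    intro i
    refine Real.le_sqrt_of_sq_le ((norm_le_nsm (x k) i).trans ?_)
    rw [hxu]
    exact hanti (Nat.zero_le k)
  obtain ⟨ν, -, φ, hφ, hν⟩ := tendsto_subseq_of_bounded Metric.isBounded_closedBall hxb
  have hLie : ∀ k, IsLie ((x ∘ φ) k) := by
    intro k
    obtain ⟨g, hg, -, e⟩ := hxΩ (φ k)
    rw [Function.comp_apply, e]
    exact a3 g μ hg hμ
  have hνL : IsLie ν := lim_lie hν hLie
  have hK : ‖(Kil ν).det‖ = ‖(Kil μ).det‖ := by
    refine tendsto_nhds_unique ((c_kil.norm.tendsto ν).comp hν) ?_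
    refine tendsto_const_nhds.congr fun k => ?_
    obtain ⟨g, hg, hg1, e⟩ := hxΩ (φ k)
    have h3 := kil_norm a4 g μ hg
    rw [hg1, one_pow, mul_one, ← e] at h3
    exact h3.symm
  have hKν : (Kil ν).det ≠ 0 := by
    rw [← norm_ne_zero_iff, hK, norm_ne_zero_iff]
    exact hdet
  obtain ⟨k, hk⟩ := (hν.eventually (h2 n ν hνL hKν)).exists
  obtain ⟨g, hg, hg1, e⟩ := hxΩ (φ k)
  obtain ⟨g', hg', e'⟩ := hk (hLie k)
  rw [Function.comp_apply] at e'
  have hgi : IsUnit g'⁻¹ := Matrix.isUnit_nonsing_inv_iff.2 hg'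
  have hνeq : ν = gact (g'⁻¹ * g) μ := by
    rw [a1 g'⁻¹ g μ hgi hg, ← e, e', ← a1 g'⁻¹ g' ν hgi hg',
      Matrix.nonsing_inv_mul _ ((isUnit_iff_isUnit_det _).1 hg'), a2]
  have hHu : IsUnit (g'⁻¹ * g) := hgi.mul hg
  have hHd : ‖(g'⁻¹ * g).det‖ = 1 := by
    have h3 := kil_norm a4 (g'⁻¹ * g) μ hHu
    rw [← hνeq, hK] at h3
    have h4 : ‖(Kil μ).det‖ ≠ 0 := norm_ne_zero_iff.2 hdet
    have h5 : ‖(g'⁻¹ * g).det‖ ^ 2 = 1 := mul_left_cancel₀ h4 (by rw [h3, mul_one])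
    nlinarith [norm_nonneg (g'⁻¹ * g).det, sq_nonneg (‖(g'⁻¹ * g).det‖ - 1)]
  have hnν : nsm ν = sInf (nsm '' Ω) := by
    refine tendsto_nhds_unique ((c_nsm.tendsto ν).comp hν) ?_
    refine (hlim.comp hφ.tendsto_atTop).congr fun k => ?_
    exact (hxu (φ k)).symm
  refine ⟨g'⁻¹ * g, hHu, fun g₁ hg₁ hg₁1 => ?_⟩
  rw [← hνeq, hnν]
  refine csInf_le hbdd ⟨_, ⟨g₁ * (g'⁻¹ * g), hg₁.mul hHu, ?_, ?_⟩, rfl⟩
  · rw [det_mul, norm_mul, hg₁1, hHd, one_mul]
  · rw [a1 g₁ _ μ hg₁ hHu, ← hνeq]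

end

theorem pCMN (h1 : StCAL) (h2 : StCRG) : StCMN := by
  intro n _ _ μ hμ hdet
  obtain ⟨h, hh, hmin⟩ := main_CMN h1 h2 μ hμ hdet
  obtain ⟨a1, a2, -, -, a5, -, -, -, a9, -⟩ := h1 n
  exact ⟨h, hh, fun S hS htr => crit_of_min a1 a2 a5 a9 (gact h μ) hmin S hS htr⟩

end Pool.Agent.Helper99.NO
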